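import Pool.Agent.X130.HC.C

/-!
# Halving lines and approximate centres of symmetry

Definitions (in `Pool/Agent/X130/HC/C.lean`):

* `Line a b t = {p | a * p.1 + b * p.2 = t}`,
* `IsBisector P L`: `L` is a line through two distinct points of `P` with exactly `|P| / 2 - 1` points
  of `P` on each open side,
* `refl c x = 2 c - x`, the reflection of the point `x` in the centre `c`,
* `DefectLE P c m L`: `L` is a line which does not contain `c`, and the open half-plane `H` bounded by
  `L` which does not contain `c` contains at most `m` more points of `P` than its reflection in `c`.

Proof. If the defect of a bisector `L` is at most `m`, then at most `m` points of `P` lie strictly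
between `L` and its reflection in `c`. The lines spanned by a set `R` for which no point of `R` lies in
this strip are at most `2 |R|`: at most two of them pass through a point of `R` at maximal distance
from `c`, and this point can be removed. The bound for `m` points in the strip follows by taking a
random sample `R` of `P` in which every point is chosen with probability `1 / (m + 1)`.
-/

set_option autoImplicit false

namespace Pool.Agent.Results.MP_e17eac_co.ApproximateCentre

open Finset Pool.Agent.X130.HC

open scoped Classical in
/-- Let `P` be a finite set of an even number of points of the plane (in general position or not) and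
`c` any point of the plane.
1. For every `m`, at most `6 (m + 1) |P|` bisectors `L` of `P` have defect at most `m` with respect to
   `c`, that is: the open half-plane bounded by `L` which does not contain `c` has at most `m` more
   points of `P` than its reflection in `c`.
2. At most `|P|` bisectors of `P` contain `c`.
3. Hence, if all but at most `m` points `x` of `P` have their reflection `2 c - x` in `P`, then `P` has
   at most `(6 m + 7) |P|` bisectors. -/
theorem result : ∀ P : Finset (ℝ × ℝ), Even #P → ∀ c : ℝ × ℝ,
    (∀ m : ℕ, {L | IsBisector P L ∧ DefectLE P c m L}.ncard ≤ 6 * (m + 1) * #P) ∧
    {L | IsBisector P L ∧ c ∈ L}.ncard ≤ #P ∧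
    (∀ m : ℕ, #{x ∈ P | refl c x ∉ P} ≤ m → {L | IsBisector P L}.ncard ≤ (6 * m + 7) * #P) :=
  fun P hE c => ⟨defect_count P hE c, centre_count P c, symmetric_count P hE c⟩

end Pool.Agent.Results.MP_e17eac_co.ApproximateCentre
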