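import Pool.Agent.X130.CP.C

/-!
# Many bisectors force long convex paths of bisectors

Let `P` be a set of `n` points in general position, `n` even, with `h` bisectors.  For every
direction in which no two points of `P` have the same abscissa there is a monotone path of at least
`2 h / n` consecutive bisecting segments that turns always to the right, and one that turns always to
the left; their vertices are in convex position.  Hence `h ≤ (t - 1) n / 2` if at most `t` points of
`P` are in convex position.  The corresponding bound for the pairs of points with exactly `k` points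
below their line is `(t - 1) min (k + 1, n - 1 - k)`.

Proof: the segments of `k`-edges are organised in concave chains (Agarwal, Aronov, Chan, Sharir,
Dey); there are at most `n - k - 1` concave and at most `k + 1` convex chains, since a chain starts
only at a point with more than `k` points on its right, and every chain is a convex polygonal path.
`Line`, `GeneralPosition` and `IsBisector` are those of the starting results.
-/

set_option autoImplicit false

namespace Pool.Agent.Results.MP_e17eac_co.ConvexPaths

open Finset Pool.Agent.X130.CP Pool.Agent.TH511.HLC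
open Pool.Agent.W296.HL (GeneralPosition IsBisector)

/-- **Bisectors and the largest convex polygon.** (1) For every set `P` of `n` points in general
position, `n > 0` even, with `h` bisectors, every `ε` for which `x + ε y` is injective on `P`, and
both senses `s = 1` (right), `s = -1` (left), there is a path of `m ≥ 2 h / n` consecutive bisecting
segments, monotone in `x + ε y`, turning always in the sense `s`, with its vertices in convex
position.  (2) `2 h ≤ (t - 1) n` if every subset of `P` in convex position has at most `t` points.
(3) For `k`-edges: at most `(t - 1) min (k + 1, n - 1 - k)`. -/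
theorem result :
    (∀ P : Finset (ℝ × ℝ), GeneralPosition P → Even #P → P.Nonempty → ∀ ε : ℝ,
      (∀ x ∈ P, ∀ y ∈ P, x.1 + ε * x.2 = y.1 + ε * y.2 → x = y) → ∀ s : ℝ, s = 1 ∨ s = -1 →
      ∃ (m : ℕ) (d : ℕ → ℝ × ℝ), BisectorPath P ε m d ∧ Turns s m d ∧
        2 * {L | IsBisector P L}.ncard ≤ m * #P) ∧
    (∀ P : Finset (ℝ × ℝ), GeneralPosition P → Even #P → ∀ t : ℕ,
      (∀ A ⊆ P, ConvexPosition A → #A ≤ t) →
      2 * {L | IsBisector P L}.ncard ≤ (t - 1) * #P) ∧
    (∀ P : Finset (ℝ × ℝ), GeneralPosition P → (∀ p ∈ P, ∀ q ∈ P, p.1 = q.1 → p = q) →
      ∀ k t : ℕ, (∀ A ⊆ P, ConvexPosition A → #A ≤ t) →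
      #(kEdges P k) ≤ (t - 1) * min (k + 1) (#P - 1 - k)) :=
  ⟨fun _ hP hE hne _ hε s hs => paths (Pool.Agent.W296.HL.gen_of_gp hP) hE hne hε s hs,
    fun _ hP hE _ ht => convex_bound (Pool.Agent.W296.HL.gen_of_gp hP) hE ht,
    fun _ hP hx k _ ht => kEdges_bound (Pool.Agent.W296.HL.gen_of_gp hP) hx k ht⟩

end Pool.Agent.Results.MP_e17eac_co.ConvexPaths
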