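import Pool.Agent.X248.RS.Geo
import Pool.Agent.H189R2.Iid.Final

/-!
# Halving lines of random subsets and of independent random points

A set of `m` points can have `m ^ (4 / 3)` halving lines as far as is known. A random subset of
size `m` of any set of `N` points in general position has on average at most
`C m ^ (7 / 6) (N / (N - m + 1)) ^ (1 / 6)` halving lines. For `m = N` this is the bound of Dey; for
`m ≤ N / 2` it is `m ^ (7 / 6)`, and `D` random deletions divide the bound of Dey by `D ^ (1 / 6)`.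
The same bound `m ^ (7 / 6)` holds for `m` independent random points of any law which does not
charge lines.
-/

set_option autoImplicit false

namespace Pool.Agent.Results.MP_e17eac_co.RandomSubsets

open Finset MeasureTheory Pool.Agent.H189R2.Lev Pool.Agent.H189R2.Iid Pool.Agent.X248.RS
open KLev.Halving (Line GeneralPosition IsBisector)
open scoped ENNReal

/-- the points of `S`, numbered -/
noncomputable def pts (S : Finset (ℝ × ℝ)) : Fin #S ↪ ℝ × ℝ :=
  S.equivFin.symm.toEmbedding.trans (Function.Embedding.subtype _)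

theorem map_pts (S : Finset (ℝ × ℝ)) : (univ : Finset (Fin #S)).map (pts S) = S := by
  ext x
  rw [mem_map]
  constructor
  · rintro ⟨i, -, rfl⟩
    exact (S.equivFin.symm i).2
  · intro hx
    exact ⟨S.equivFin ⟨x, hx⟩, mem_univ _, by simp [pts]⟩

theorem simple_pts {S : Finset (ℝ × ℝ)} (hS : GeneralPosition S) :
    Pool.Agent.Results.MP_a08d0a_co.SmoothedLevel.Simple (fun i => (pts S i).1)
      (fun i => (pts S i).2) := by
  have hmem : ∀ i, pts S i ∈ S := fun i => (S.equivFin.symm i).2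
  refine ⟨fun i j hij h h' => hij ((pts S).injective (Prod.ext h h')), ?_⟩
  rintro i j l hij hil hjl ⟨x, e1, e2⟩
  unfold ht at e1 e2
  refine hS x 1 (x * (pts S i).1 + (pts S i).2) (Or.inr one_ne_zero) _ (hmem i) _ (hmem j) _
    (hmem l) (fun h => hij ((pts S).injective h)) (fun h => hil ((pts S).injective h))
    (fun h => hjl ((pts S).injective h)) ⟨?_, ?_, ?_⟩
  · show x * (pts S i).1 + 1 * (pts S i).2 = _
    ring
  · show x * (pts S j).1 + 1 * (pts S j).2 = _
    linarith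
  · show x * (pts S l).1 + 1 * (pts S l).2 = _
    linarith

theorem exists_same {S : Finset (ℝ × ℝ)} (hS : GeneralPosition S) :
    ∃ P : Fin #S → ℝ × ℝ, GP P ∧ Same (pts S) P := by
  obtain ⟨P, hP, h⟩ := Pool.Agent.Y344.KD.exists_GP (simple_pts hS)
  refine ⟨P, hP, fun i j hij => ⟨(h i j hij).1, fun l => ?_⟩⟩
  rw [(h i j hij).2 l]
  unfold ht cr
  rw [mul_div_assoc, mul_div_assoc]

theorem subsets {S : Finset (ℝ × ℝ)} (hS : GeneralPosition S) {m : ℕ} (hm : Even m) (hm2 : 2 ≤ m)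
    (hmS : m ≤ #S) :
    ∑ R ∈ S.powersetCard m, ({L | IsBisector R L}.ncard : ℝ) ≤
      ((#S).choose m : ℝ) * (141 * ((m : ℝ) ^ 7 * (#S / (#S - m + 1))) ^ (1 / 6 : ℝ)) := by
  obtain ⟨k, hk⟩ : ∃ k, m = 2 * k + 2 := by
    obtain ⟨r, hr⟩ := hm
    exact ⟨r - 1, by omega⟩
  obtain ⟨P, hP, hs⟩ := exists_same hS
  have h1 : ∑ R ∈ S.powersetCard m, ({L | IsBisector R L}.ncard : ℝ) =
      ∑ I ∈ powersetCard m (univ : Finset (Fin #S)),
        ({L | IsBisector (I.map (pts S)) L}.ncard : ℝ) := by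
    conv_lhs => rw [← map_pts S]
    rw [powersetCard_map, sum_map]
    rfl
  rw [h1]
  have h2 : ∀ I ∈ powersetCard m (univ : Finset (Fin #S)),
      ({L | IsBisector (I.map (pts S)) L}.ncard : ℝ) ≤ (cntI P k I : ℝ) + 1 := by
    intro I hI
    rw [mem_powersetCard] at hI
    have := bis_le (pts S).injective hs (I := I) (k := k) (by rw [hI.2, hk])
      (R := I.map (pts S)) rfl
    exact_mod_cast this
  refine (sum_le_sum h2).trans ?_
  rw [sum_add_distrib, sum_const, card_powersetCard, card_univ, Fintype.card_fin, nsmul_eq_mul,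
    mul_one]
  have h3 := mean_bound hP (k := k) (by omega)
  rw [← hk] at h3
  have h4 : ((#S : ℝ) - (2 * k + 2) + 1) = #S - m + 1 := by
    rw [hk]; push_cast; ring
  rw [h4] at h3
  set x : ℝ := ((m : ℝ) ^ 7 * (#S / (#S - m + 1))) ^ (1 / 6 : ℝ) with hx
  have h5 : 1 ≤ x := by
    rw [hx]
    apply Real.one_le_rpow _ (by norm_num)
    have a1 : (1 : ℝ) ≤ m := by exact_mod_cast (by omega : 1 ≤ m)
    have a2 : (m : ℝ) ≤ #S := by exact_mod_cast hmS
    have a3 : (1 : ℝ) ≤ #S / (#S - m + 1) := by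
      rw [le_div_iff₀ (by linarith)]
      linarith
    have a4 : (1 : ℝ) ≤ (m : ℝ) ^ 7 := one_le_pow₀ a1
    nlinarith
  have h6 : (0 : ℝ) ≤ ((#S).choose m : ℝ) := Nat.cast_nonneg _
  calc _ ≤ ((#S).choose m : ℝ) * (140 * x) + ((#S).choose m : ℝ) * 1 := by
        rw [mul_one]; exact add_le_add_left h3 _
    _ = ((#S).choose m : ℝ) * (140 * x + 1) := by ring
    _ ≤ _ := mul_le_mul_of_nonneg_left (by linarith) h6

theorem independent : ∃ C : ℝ, 0 < C ∧ ∀ (μ : Measure (ℝ × ℝ)) [IsProbabilityMeasure μ],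
    (∀ a b c : ℝ, (a ≠ 0 ∨ b ≠ 0) → μ (Line a b c) = 0) → ∀ m : ℕ, Even m →
    ∫⁻ X, ({L | IsBisector (univ.image X) L}.ncard : ℝ≥0∞) ∂Measure.pi (fun _ : Fin m => μ) ≤
      ENNReal.ofReal (C * (m : ℝ) ^ (7 / 6 : ℝ)) := by
  classical
  have hSS := SS_ge
  refine ⟨1309 * SS, by positivity, ?_⟩
  intro μ _ hμ m hm
  have hLN : LN μ := hμ
  rcases Nat.eq_zero_or_pos m with rfl | hm0
  · have : ∀ X : Fin 0 → ℝ × ℝ, ({L | IsBisector (univ.image X) L}.ncard : ℝ≥0∞) = 0 := by
      intro X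
      have : {L | IsBisector (univ.image X) L} = ∅ := by
        ext L
        rw [Set.mem_empty_iff_false, iff_false]
        rintro ⟨a, b, c, -, -, ⟨p, hp, -⟩, -⟩
        simp at hp
      rw [this]
      simp
    simp_rw [this]
    simp
  obtain ⟨k, hk⟩ : ∃ k, m = 2 * k + 2 := by
    obtain ⟨r, hr⟩ := hm
    exact ⟨r - 1, by omega⟩
  have hm1 : (1 : ℝ) ≤ m := by exact_mod_cast hm0
  have h1 : ∫⁻ X, ({L | IsBisector (univ.image X) L}.ncard : ℝ≥0∞)
      ∂Measure.pi (fun _ : Fin m => μ) ≤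
      ∫⁻ X, ((((T X).filter (fun q => lev X q = k)).card : ℝ≥0∞) + 1)
        ∂Measure.pi (fun _ : Fin m => μ) := by
    apply lintegral_mono_ae
    filter_upwards [ae_GP hLN m] with X hX
    have hinj : Function.Injective X := fun i j h => hX.1 i j (by rw [h])
    have h2 := bis_le hinj (same_self X) (I := univ) (k := k) (by simp [hk])
      (R := univ.image X) (by rw [map_eq_image]; rfl)
    have h3 : cntI X k univ ≤ ((T X).filter (fun q => lev X q = k)).card := by
      unfold cntI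
      apply card_le_card
      intro q hq
      rw [mem_filter] at hq ⊢
      refine ⟨hq.1, ?_⟩
      have := hq.2.2.2
      rw [inter_univ] at this
      exact this
    exact_mod_cast h2.trans (Nat.add_le_add_right h3 1)
  refine h1.trans ?_
  rw [lintegral_add_right _ measurable_const, lintegral_const, measure_univ, one_mul]
  refine (add_le_add_left (level_bound hLN (n := m) (k := k) (by omega)) _).trans ?_
  rw [show (1 : ℝ≥0∞) = ENNReal.ofReal 1 by simp, ← ENNReal.ofReal_add (by positivity) (by norm_num)]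
  apply ENNReal.ofReal_le_ofReal
  have h4 : (m : ℝ) ^ (7 / 6 : ℝ) = m * (m : ℝ) ^ (1 / 6 : ℝ) := by
    rw [show (7 / 6 : ℝ) = 1 + 1 / 6 by norm_num, Real.rpow_add (by linarith), Real.rpow_one]
  have h5 : ((k : ℝ) + 1) ^ (1 / 6 : ℝ) ≤ (m : ℝ) ^ (1 / 6 : ℝ) := by
    apply Real.rpow_le_rpow (by positivity) _ (by norm_num)
    rw [hk]; push_cast
    have : (0 : ℝ) ≤ k := Nat.cast_nonneg k
    linarith
  have h6 : 1 ≤ (m : ℝ) ^ (1 / 6 : ℝ) := Real.one_le_rpow hm1 (by norm_num)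
  rw [h4]
  set y : ℝ := (m : ℝ) ^ (1 / 6 : ℝ) with hy
  have h7 : 1308 * SS * m * ((k : ℝ) + 1) ^ (1 / 6 : ℝ) ≤ 1308 * SS * m * y :=
    mul_le_mul_of_nonneg_left h5 (by positivity)
  have h8 : 1 ≤ SS * m * y := by
    have : 1 ≤ SS * m := by nlinarith
    nlinarith
  nlinarith

/-- **Halving lines of random subsets and of independent random points.** -/
theorem result :
    (∀ S : Finset (ℝ × ℝ), GeneralPosition S → ∀ m : ℕ, Even m → 2 ≤ m → m ≤ #S →
      ∑ R ∈ S.powersetCard m, ({L | IsBisector R L}.ncard : ℝ) ≤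
        ((#S).choose m : ℝ) * (141 * ((m : ℝ) ^ 7 * (#S / (#S - m + 1))) ^ (1 / 6 : ℝ))) ∧
    ∃ C : ℝ, 0 < C ∧ ∀ (μ : Measure (ℝ × ℝ)) [IsProbabilityMeasure μ],
      (∀ a b c : ℝ, (a ≠ 0 ∨ b ≠ 0) → μ (Line a b c) = 0) → ∀ m : ℕ, Even m →
      ∫⁻ X, ({L | IsBisector (univ.image X) L}.ncard : ℝ≥0∞) ∂Measure.pi (fun _ : Fin m => μ) ≤
        ENNReal.ofReal (C * (m : ℝ) ^ (7 / 6 : ℝ)) :=
  ⟨fun _ hS _ h1 h2 h3 => subsets hS h1 h2 h3, independent⟩

end Pool.Agent.Results.MP_e17eac_co.RandomSubsets
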