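import Pool.Agent.X248.RS.Cross
import Pool.Agent.Results.MP_a08d0a_co.SmoothedLevel

/-!
# Smoothed number of halving lines

Independent random points whose two coordinates are independent, the first with any law, the second
bounded by `M` with density at most `D`: the expected number of halving lines is at most
`9 D M n`. In particular, if the `i`-th point is uniformly distributed in the square of side `2 σ`
around a given point of the strip `|y| ≤ M`, then it is at most `5 (1 + M / σ) n`.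
-/

set_option autoImplicit false

namespace Pool.Agent.Results.MP_e17eac_co.SmoothedPoints

open Finset MeasureTheory Pool.Agent.H189R2.Lev Pool.Agent.H189R2.Iid Pool.Agent.X248.RS
open KLev.Halving (Line IsBisector)
open Pool.Agent.Results.MP_a08d0a_co.IidLevel (crossings sl ic measurable_crossings)
open scoped ENNReal

/-- the uniform distribution on the interval with centre `c` and length `2 σ` -/
noncomputable def unif (c σ : ℝ) : Measure ℝ :=
  ENNReal.ofReal (1 / (2 * σ)) • volume.restrict (Set.Icc (c - σ) (c + σ))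

instance unif_prob (c : ℝ) (σ : {σ : ℝ // 0 < σ}) : IsProbabilityMeasure (unif c σ) := by
  constructor
  have hσ := σ.2
  unfold unif
  rw [Measure.smul_apply, Measure.restrict_apply_univ, Real.volume_Icc, smul_eq_mul,
    ← ENNReal.ofReal_mul (by positivity)]
  rw [show 1 / (2 * (σ : ℝ)) * (c + σ - (c - σ)) = 1 by field_simp; ring]
  simp

theorem unif_le (c : ℝ) {σ : ℝ} (hσ : 0 < σ) (s t : ℝ) (hst : s ≤ t) :
    unif c σ (Set.Icc s t) ≤ ENNReal.ofReal (1 / (2 * σ) * (t - s)) := by
  unfold unif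
  rw [Measure.smul_apply, smul_eq_mul, ENNReal.ofReal_mul (by positivity)]
  gcongr
  refine (Measure.restrict_apply_le _ _).trans ?_
  rw [Real.volume_Icc]

theorem unif_supp (c σ : ℝ) {M : ℝ} (hc : |c| ≤ M) : ∀ᵐ b ∂unif c σ, |b| ≤ M + σ := by
  unfold unif
  apply Measure.ae_smul_measure
  rw [ae_restrict_iff' measurableSet_Icc]
  refine Filter.Eventually.of_forall fun b hb => ?_
  rw [abs_le] at hc ⊢
  constructor <;> linarith [hb.1, hb.2]

variable {n : ℕ}

theorem null_eq {β : Fin n → Measure ℝ} [∀ i, IsProbabilityMeasure (β i)] {D : ℝ}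
    (hβ : ∀ i, ∀ s t : ℝ, s ≤ t → β i (Set.Icc s t) ≤ ENNReal.ofReal (D * (t - s))) :
    ∀ᵐ B ∂Measure.pi β, Function.Injective B := by
  filter_upwards [Pool.Agent.Results.MP_a08d0a_co.SmoothedLevel.ae_simple hβ (fun _ => 0)] with B hB
  intro i j h
  by_contra hij
  exact hB.1 i j hij rfl h

theorem bound (hn : Even n) (α β : Fin n → Measure ℝ) [∀ i, IsProbabilityMeasure (α i)]
    [∀ i, IsProbabilityMeasure (β i)] {D M : ℝ}
    (hβ : ∀ i, ∀ s t : ℝ, s ≤ t → β i (Set.Icc s t) ≤ ENNReal.ofReal (D * (t - s)))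
    (hM : ∀ i, ∀ᵐ b ∂β i, |b| ≤ M) :
    ∫⁻ X, ({L | IsBisector (univ.image X) L}.ncard : ℝ≥0∞)
      ∂Measure.pi (fun i => (α i).prod (β i)) ≤ ENNReal.ofReal (9 * D * M * n) := by
  classical
  rcases Nat.eq_zero_or_pos n with rfl | hn0
  · have : ∀ X : Fin 0 → ℝ × ℝ, ({L | IsBisector (univ.image X) L}.ncard : ℝ≥0∞) = 0 := by
      intro X
      have : {L | IsBisector (univ.image X) L} = ∅ := by
        ext L
        rw [Set.mem_empty_iff_false, iff_false]
        rintro ⟨a, b, c, -, -, ⟨p, hp, -⟩, -⟩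
        simp at hp
      rw [this]
      simp
    simp_rw [this]
    simp
  obtain ⟨k, hk⟩ : ∃ k, n = 2 * k + 2 := by
    obtain ⟨r, hr⟩ := hn
    exact ⟨r - 1, by omega⟩
  -- the mass of the interval
  have hDM : 1 ≤ 2 * D * M := by
    set i : Fin n := ⟨0, hn0⟩
    have h1 : β i (Set.Icc (-M) M) = 1 := by
      rw [← measure_univ (μ := β i)]
      apply measure_congr
      filter_upwards [hM i] with b hb
      exact propext ⟨fun _ => trivial, fun _ => abs_le.mp hb⟩
    have hM0 : 0 ≤ M := by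
      by_contra hneg
      push Not at hneg
      rw [Set.Icc_eq_empty (by linarith), measure_empty] at h1
      exact zero_ne_one h1
    have h2 := hβ i (-M) M (by linarith)
    rw [h1, show (1 : ℝ≥0∞) = ENNReal.ofReal 1 by simp] at h2
    by_contra hcon
    push Not at hcon
    have h3 : ENNReal.ofReal (D * (M - -M)) < ENNReal.ofReal 1 := by
      rw [ENNReal.ofReal_lt_ofReal_iff one_pos]
      linarith
    exact absurd h2 (not_le.mpr h3)
  have hn2 : (2 : ℝ) ≤ n := by exact_mod_cast (by omega : 2 ≤ n)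
  set e := MeasurableEquiv.arrowProdEquivProdArrow ℝ ℝ (Fin n) with he
  have hmp := measurePreserving_arrowProdEquivProdArrow ℝ ℝ (Fin n) α β
  set π := Measure.pi (fun i => (α i).prod (β i)) with hπ
  have hinj : ∀ᵐ X ∂π, Function.Injective X := by
    have h1 : ∀ᵐ z ∂(Measure.pi α).prod (Measure.pi β), Function.Injective z.2 :=
      Measure.quasiMeasurePreserving_snd.ae (null_eq hβ)
    have h2 := hmp.quasiMeasurePreserving.ae h1
    filter_upwards [h2] with X hX
    intro i j hij
    apply hX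
    show (X i).2 = (X j).2
    rw [hij]
  set G : (Fin n → ℝ × ℝ) → ℝ≥0∞ := fun X => ((crossings (sl X) (ic X) k).ncard : ℝ≥0∞) + 1 with hG
  have hGm : Measurable G := (measurable_crossings k).add measurable_const
  have h1 : ∫⁻ X, ({L | IsBisector (univ.image X) L}.ncard : ℝ≥0∞) ∂π ≤ ∫⁻ X, G X ∂π := by
    apply lintegral_mono_ae
    filter_upwards [hinj] with X hX
    have h0 := bis_cross hX hk
    simp only [hG]
    exact_mod_cast h0
  have h2 : ∫⁻ X, G X ∂π = ∫⁻ z, G (e.symm z) ∂(Measure.pi α).prod (Measure.pi β) := by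
    have h0 := hmp.lintegral_comp (hGm.comp e.symm.measurable)
    refine Eq.trans ?_ h0
    apply lintegral_congr
    intro X
    rw [Function.comp_apply]
    congr 1
  refine h1.trans ?_
  have h6 : ∫⁻ z, G (e.symm z) ∂(Measure.pi α).prod (Measure.pi β) =
      ∫⁻ a, ∫⁻ B, G (e.symm (a, B)) ∂Measure.pi β ∂Measure.pi α :=
    lintegral_prod (fun z => G (e.symm z)) (hGm.comp e.symm.measurable).aemeasurable
  rw [h2, h6]
  have h3 : ∀ a : Fin n → ℝ, ∫⁻ B, G (e.symm (a, B)) ∂Measure.pi β ≤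
      ENNReal.ofReal (9 * D * M * n) := by
    intro a
    have h4 := (Pool.Agent.Results.MP_a08d0a_co.SmoothedLevel.result n a β D M hβ hM).2.1 k
    have h5 : ∀ B : Fin n → ℝ, G (e.symm (a, B)) =
        ((Pool.Agent.Results.MP_a08d0a_co.SmoothedLevel.crossings a B k).ncard : ℝ≥0∞) + 1 :=
      fun B => rfl
    simp_rw [h5]
    rw [lintegral_add_right _ measurable_const, lintegral_const, measure_univ, one_mul]
    refine (add_le_add_left h4 _).trans ?_
    rw [show (1 : ℝ≥0∞) = ENNReal.ofReal 1 by simp,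
      ← ENNReal.ofReal_add (by nlinarith) (by norm_num)]
    apply ENNReal.ofReal_le_ofReal
    nlinarith
  refine (lintegral_mono h3).trans ?_
  rw [lintegral_const, measure_univ, mul_one]

/-- **Smoothed number of halving lines.** -/
theorem result :
    (∀ (n : ℕ), Even n → ∀ (α β : Fin n → Measure ℝ) [∀ i, IsProbabilityMeasure (α i)]
      [∀ i, IsProbabilityMeasure (β i)] (D M : ℝ),
      (∀ i, ∀ s t : ℝ, s ≤ t → β i (Set.Icc s t) ≤ ENNReal.ofReal (D * (t - s))) →
      (∀ i, ∀ᵐ b ∂β i, |b| ≤ M) →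
      ∫⁻ X, ({L | IsBisector (univ.image X) L}.ncard : ℝ≥0∞)
        ∂Measure.pi (fun i => (α i).prod (β i)) ≤ ENNReal.ofReal (9 * D * M * n)) ∧
    (∀ (n : ℕ), Even n → ∀ (p : Fin n → ℝ × ℝ) (σ M : ℝ), 0 < σ → (∀ i, |(p i).2| ≤ M) →
      ∫⁻ X, ({L | IsBisector (univ.image X) L}.ncard : ℝ≥0∞)
        ∂Measure.pi (fun i => (unif (p i).1 σ).prod (unif (p i).2 σ)) ≤
        ENNReal.ofReal (5 * (1 + M / σ) * n)) := by
  refine ⟨fun n hn α β _ _ D M h1 h2 => bound hn α β h1 h2, ?_⟩
  intro n hn p σ M hσ hp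
  have i1 : ∀ i, IsProbabilityMeasure (unif (p i).1 σ) := fun i => unif_prob _ ⟨σ, hσ⟩
  have i2 : ∀ i, IsProbabilityMeasure (unif (p i).2 σ) := fun i => unif_prob _ ⟨σ, hσ⟩
  rcases Nat.eq_zero_or_pos n with rfl | hn0
  · refine (bound hn (fun i => unif (p i).1 σ) (fun i => unif (p i).2 σ) (D := 1 / (2 * σ))
      (M := M + σ) (fun i => unif_le _ hσ) (fun i => unif_supp _ _ (hp i))).trans ?_
    simp
  have hM0 : 0 ≤ M := (abs_nonneg _).trans (hp ⟨0, hn0⟩)
  refine (bound hn (fun i => unif (p i).1 σ) (fun i => unif (p i).2 σ) (D := 1 / (2 * σ))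
    (M := M + σ) (fun i => unif_le _ hσ) (fun i => unif_supp _ _ (hp i))).trans ?_
  apply ENNReal.ofReal_le_ofReal
  have h1 : 9 * (1 / (2 * σ)) * (M + σ) = 9 / 2 * (1 + M / σ) := by
    field_simp
    ring
  rw [h1]
  have h2 : 0 ≤ M / σ := by positivity
  have h3 : (0 : ℝ) ≤ n := Nat.cast_nonneg n
  nlinarith

end Pool.Agent.Results.MP_e17eac_co.SmoothedPoints
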